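import Pool.Agent.Helper36.CV.StmtsR

set_option autoImplicit false

namespace Pool.Agent.Helper90.CV.L1

open Pool.Agent.Helper36.CV

theorem st_L1 : ST_L1 := by
  intro h τL τR qL qR g u hh hL hLR hqL hqR hg hu
  have hτL : 0 < τL := lt_of_le_of_lt hh hL
  have hτR : 0 < τR := hτL.trans hLR
  have hL2 : 0 < τL ^ 2 - h ^ 2 := by nlinarith
  have hR2 : 0 < τR ^ 2 - h ^ 2 := by nlinarith
  have hLR2 : τL ^ 2 - h ^ 2 < τR ^ 2 - h ^ 2 := by nlinarith
  have qL0 : 0 < qL := by rw [hqL]; exact Real.sqrt_pos.mpr hL2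
  have qR0 : 0 < qR := by rw [hqR]; exact Real.sqrt_pos.mpr hR2
  have sqL : qL ^ 2 = τL ^ 2 - h ^ 2 := by rw [hqL]; exact Real.sq_sqrt hL2.le
  have sqR : qR ^ 2 = τR ^ 2 - h ^ 2 := by rw [hqR]; exact Real.sq_sqrt hR2.le
  have qLR : qL < qR := by
    rw [hqL, hqR]; exact Real.sqrt_lt_sqrt hL2.le hLR2
  have hid : (qR - qL) * (qL + qR) = (τR - τL) * (τL + τR) := by nlinarith
  have d0 : 0 < qR - qL := by linarith
  have t0 : 0 < τR - τL := by linarith
  have s0 : 0 < qL + qR := by linarith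
  have T0 : 0 < τL + τR := by linarith
  -- cross inequality
  have hcross : qL * τR ≤ qR * τL := by
    have h2 : (qL * τR) ^ 2 ≤ (qR * τL) ^ 2 := by
      have : (qR * τL) ^ 2 - (qL * τR) ^ 2 = h ^ 2 * (τR ^ 2 - τL ^ 2) := by
        rw [mul_pow, mul_pow, sqL, sqR]; ring
      have h3 : 0 ≤ h ^ 2 * (τR ^ 2 - τL ^ 2) := by
        apply mul_nonneg (sq_nonneg _); nlinarith
      linarith
    exact (pow_le_pow_iff_left₀ (by positivity) (by positivity) (by norm_num)).mp h2
  have hqLτ : qL ≤ τL := by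
    apply le_of_sq_le_sq _ hτL.le
    rw [sqL]; nlinarith [sq_nonneg h]
  have hqRτ : qR ≤ τR := by
    apply le_of_sq_le_sq _ hτR.le
    rw [sqR]; nlinarith [sq_nonneg h]
  have g0 : 0 < g := by rw [hg]; positivity
  have g1 : g ≤ 1 := by rw [hg, div_le_one T0]; linarith
  have gL : qL / τL ≤ g := by
    rw [hg, div_le_div_iff₀ hτL T0]; nlinarith
  have gR : g ≤ qR / τR := by
    rw [hg, div_le_div_iff₀ T0 hτR]; nlinarith
  have rL0 : 0 < qL / τL := by positivity
  have rR1 : qR / τR ≤ 1 := by rw [div_le_one hτR]; exact hqRτ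
  have e1 : u = (qL + qR) ^ 2 / ((τR - τL) * (τL + τR)) := by
    rw [hu, ← hid, pow_two, mul_comm (qR - qL), mul_div_mul_left _ _ s0.ne']
  have e2 : (qR - qL) = (τR - τL) * (τL + τR) / (qL + qR) := by
    rw [eq_div_iff s0.ne']; exact hid
  refine ⟨qL0, qLR, hid, ?_, ?_, ?_, ?_, ?_, ?_, ?_, ?_, ?_, ?_, ?_⟩
  · have hu1 : u - 1 = 2 * qL * (qL + qR) / ((τR - τL) * (τL + τR)) := by
      rw [← hid, hu]; field_simp; ring
    have hu2 : u * ((qR - qL) * qL / ((τR - τL) * τL)) = (qL + qR) * qL / ((τR - τL) * τL) := by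
      rw [hu]; field_simp
    rw [mul_sub, hu2, hg]
    have : u = 1 + 2 * qL * (qL + qR) / ((τR - τL) * (τL + τR)) := by linarith
    rw [this]; field_simp; ring
  · have hu1 : u + 1 = 2 * qR * (qL + qR) / ((τR - τL) * (τL + τR)) := by
      rw [← hid, hu]; field_simp; ring
    have hu2 : u * ((qR - qL) * qR / ((τR - τL) * τR)) = (qL + qR) * qR / ((τR - τL) * τR) := by
      rw [hu]; field_simp
    rw [mul_sub, hu2, hg]
    have : u = 2 * qR * (qL + qR) / ((τR - τL) * (τL + τR)) - 1 := by linarith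
    rw [this]; field_simp; ring
  · rw [e1, hg]; field_simp
  · rw [e2, div_mul_eq_mul_div, div_le_iff₀ s0]
    have h1 : (τL + τR) * (qL / τL + qR / τR) ≤ 2 * (qL + qR) := by
      have h2 : (τR - τL) * (qL / τL) ≤ (τR - τL) * (qR / τR) :=
        mul_le_mul_of_nonneg_left (gL.trans gR) t0.le
      have h3 : τL * (qL / τL) = qL := by field_simp
      have h4 : τR * (qR / τR) = qR := by field_simp
      nlinarith
    nlinarith
  · positivity
  · rw [pow_two, mul_div_assoc]
    exact mul_le_mul_of_nonneg_left gL g0.le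
  · rw [pow_two, mul_div_assoc]
    exact mul_le_mul_of_nonneg_right gL rL0.le
  · rw [pow_two, mul_div_assoc]
    exact mul_le_mul_of_nonneg_left gR g0.le
  · rw [mul_div_assoc]
    nlinarith
  · have h1 : (qR - qL) * qL * (qL + qR) ≤ (τR - τL) * τL * (qL + qR) := by
      have h2 : (qR - qL) * qL * (qL + qR) = (τR - τL) * ((τL + τR) * qL) := by
        rw [mul_right_comm, hid]; ring
      rw [h2, mul_assoc (τR - τL)]
      exact mul_le_mul_of_nonneg_left (by nlinarith) t0.le
    exact le_of_mul_le_mul_right h1 s0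
  · have h1 : (τR - τL) * τR * (qL + qR) ≤ (qR - qL) * qR * (qL + qR) := by
      have h2 : (qR - qL) * qR * (qL + qR) = (τR - τL) * ((τL + τR) * qR) := by
        rw [mul_right_comm, hid]; ring
      rw [h2, mul_assoc (τR - τL)]
      exact mul_le_mul_of_nonneg_left (by nlinarith) t0.le
    exact le_of_mul_le_mul_right h1 s0

end Pool.Agent.Helper90.CV.L1
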