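import Pool.Agent.Helper90.CV.L1

set_option autoImplicit false

namespace Pool.Agent.Helper90.CV.L2

open Pool.Agent.Helper36.CV

/-- ratio of two perturbed quantities -/
theorem ratio (s e S E κ : ℝ) (hs : 0 < s) (he : 0 < e) (hκ : 0 ≤ κ) (hκ1 : κ ≤ 1 / 100)
    (hS : |S - s| ≤ κ * s) (hE : |E - e| ≤ 5 * κ * e) :
    0 < E ∧ 0 < S ∧ |S / E - s / e| ≤ 7 * κ * (s / e) := by
  have hE1 : (1 - 5 * κ) * e ≤ E := by have := (abs_le.mp hE).1; linarith
  have hE0 : 0 < E := lt_of_lt_of_le (by nlinarith) hE1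
  have hS1 : (1 - κ) * s ≤ S := by have := (abs_le.mp hS).1; linarith
  have hS0 : 0 < S := lt_of_lt_of_le (by nlinarith) hS1
  refine ⟨hE0, hS0, ?_⟩
  have h1 : S / E - s / e = ((S - s) * e - s * (E - e)) / (E * e) := by
    field_simp; ring
  rw [h1, abs_div, abs_of_pos (mul_pos hE0 he), div_le_iff₀ (mul_pos hE0 he)]
  have h2 : |(S - s) * e - s * (E - e)| ≤ κ * s * e + s * (5 * κ * e) := by
    calc |(S - s) * e - s * (E - e)| ≤ |(S - s) * e| + |s * (E - e)| := abs_sub _ _
      _ = |S - s| * e + s * |E - e| := by rw [abs_mul, abs_mul, abs_of_pos he, abs_of_pos hs]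
      _ ≤ κ * s * e + s * (5 * κ * e) := by gcongr
  have h3 : 7 * κ * (s / e) * (E * e) = 7 * κ * s * E := by field_simp
  rw [h3]
  have h4 : 7 * κ * s * ((1 - 5 * κ) * e) ≤ 7 * κ * s * E :=
    mul_le_mul_of_nonneg_left hE1 (by positivity)
  have h5 : 0 ≤ κ * s * e := by positivity
  nlinarith

theorem n1L (τL τR qL qR : ℝ) (hτL : 0 < τL) (hLR : τL < τR) (qL0 : 0 < qL) (qLR : qL < qR)
    (hid : (qR - qL) * (qL + qR) = (τR - τL) * (τL + τR)) :
    qR * (τR - τL) - (qR - qL) * qL ^ 2 / τL ≤ 2 * (τR - τL) * (qR - qL) := by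
  have T0 : 0 < τL + τR := by linarith
  have e0 : 0 ≤ qR - qL := by linarith
  rw [sub_le_iff_le_add, ← sub_le_iff_le_add', le_div_iff₀ hτL]
  have h2 : (qR * (τR - τL) - 2 * (τR - τL) * (qR - qL)) * τL * (τL + τR) ≤ (qR - qL) * qL ^ 2 * (τL + τR) := by
    have h3 : (qR * (τR - τL) - 2 * (τR - τL) * (qR - qL)) * τL * (τL + τR)
        = (qR - qL) * ((qR * (qL + qR) - 2 * ((qR - qL) * (qL + qR))) * τL) := by
      have : (qR * (τR - τL) - 2 * (τR - τL) * (qR - qL)) * τL * (τL + τR)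
          = ((τR - τL) * (τL + τR)) * (qR - 2 * (qR - qL)) * τL := by ring
      rw [this, ← hid]; ring
    rw [h3, mul_assoc (qR - qL)]
    apply mul_le_mul_of_nonneg_left _ e0
    have h6 : qL * (qR * τL - qL * τR) ≤ qL * ((qR - qL) * τL) := by
      apply mul_le_mul_of_nonneg_left _ qL0.le
      have : qL * τL ≤ qL * τR := mul_le_mul_of_nonneg_left hLR.le qL0.le
      linarith
    have h7 : 0 ≤ qR * ((qR - qL) * τL) := mul_nonneg (by linarith) (mul_nonneg e0 hτL.le)
    linarith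
  exact le_of_mul_le_mul_right h2 T0

theorem n1R (τL τR qL qR : ℝ) (hτL : 0 < τL) (hLR : τL < τR) (qL0 : 0 < qL) (qLR : qL < qR)
    (hid : (qR - qL) * (qL + qR) = (τR - τL) * (τL + τR)) :
    (qR - qL) * qR ^ 2 / τR - qL * (τR - τL) ≤ 2 * (τR - τL) * (qR - qL) := by
  have T0 : 0 < τL + τR := by linarith
  have hτR : 0 < τR := by linarith
  have e0 : 0 ≤ qR - qL := by linarith
  rw [sub_le_iff_le_add, div_le_iff₀ hτR]
  have h2 : (qR - qL) * qR ^ 2 * (τL + τR) ≤ (2 * (τR - τL) * (qR - qL) + qL * (τR - τL)) * τR * (τL + τR) := by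
    have h3 : (2 * (τR - τL) * (qR - qL) + qL * (τR - τL)) * τR * (τL + τR)
        = (qR - qL) * ((2 * ((qR - qL) * (qL + qR)) + qL * (qL + qR)) * τR) := by
      have : (2 * (τR - τL) * (qR - qL) + qL * (τR - τL)) * τR * (τL + τR)
          = ((τR - τL) * (τL + τR)) * (2 * (qR - qL) + qL) * τR := by ring
      rw [this, ← hid]; ring
    rw [h3, mul_assoc (qR - qL)]
    apply mul_le_mul_of_nonneg_left _ e0
    have h6 : qR * (qR * τL - qL * τR) ≤ qR * ((qR - qL) * τR) := by
      apply mul_le_mul_of_nonneg_left _ (by linarith)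
      have : qR * τL ≤ qR * τR := mul_le_mul_of_nonneg_left hLR.le (by linarith)
      linarith
    have h7 : 0 ≤ qL * ((qR - qL) * τR) := mul_nonneg qL0.le (mul_nonneg e0 hτR.le)
    linarith
  exact le_of_mul_le_mul_right h2 T0

theorem st_L2 : ST_L2 := by
  intro h τL τR qL qR c XL XR ρ D WL WR DL DR hh hL hLR hqL hqR hρ hρD hD1 hD2 hXL hXR hX hρd hcD hWL hWR hDL hDR
  obtain ⟨qL0, qLR, hid, hu4, hu5, -, -, k1, k2, -, k4, k5, k6, k7⟩ :=
    L1.st_L1 h τL τR qL qR _ _ hh hL hLR hqL hqR rfl rfl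
  have hτL : 0 < τL := lt_of_le_of_lt hh hL
  have hτR : 0 < τR := hτL.trans hLR
  have hL2 : 0 ≤ τL ^ 2 - h ^ 2 := by nlinarith
  have hR2 : 0 ≤ τR ^ 2 - h ^ 2 := by nlinarith
  have sqL : qL ^ 2 = τL ^ 2 - h ^ 2 := by rw [hqL]; exact Real.sq_sqrt hL2
  have sqR : qR ^ 2 = τR ^ 2 - h ^ 2 := by rw [hqR]; exact Real.sq_sqrt hR2
  have qR0 : 0 < qR := qL0.trans qLR
  have D0 : 0 < D := hρ.trans_le hρD
  set d := τR - τL with hd
  set e := qR - qL with he
  set s := qL + qR with hs
  set T := τL + τR with hT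
  have d0 : 0 < d := by rw [hd]; linarith
  have e0 : 0 < e := by rw [he]; linarith
  have s0 : 0 < s := by rw [hs]; linarith
  have T0 : 0 < T := by rw [hT]; linarith
  set κ := |c| * D with hκ
  have κ0 : 0 ≤ κ := by positivity
  have hc0 : 0 ≤ |c| := abs_nonneg c
  have cX : ∀ X : ℝ, |X| ≤ ρ → |c * X| ≤ κ := by
    intro X hX
    rw [abs_mul, hκ]
    exact mul_le_mul_of_nonneg_left (hX.trans hρD) hc0
  -- q^2/τ ≤ 4 D
  have q4 : ∀ τ q : ℝ, 0 < τ → h ≤ τ → τ - h ≤ 2 * D → q ^ 2 = τ ^ 2 - h ^ 2 → q ^ 2 ≤ 4 * D * τ := by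
    intro τ q hτ h1 h2 h3
    rw [h3]
    have : τ ^ 2 - h ^ 2 = (τ - h) * (τ + h) := by ring
    rw [this]
    have h5 : (τ - h) * (τ + h) ≤ (2 * D) * (2 * τ) := by
      apply mul_le_mul h2 (by linarith) (by linarith) (by positivity)
    linarith
  have q4L : qL ^ 2 ≤ 4 * D * τL := q4 τL qL hτL hL.le (by linarith) sqL
  have q4R : qR ^ 2 ≤ 4 * D * τR := q4 τR qR hτR (by linarith) hD2 sqR
  -- D bounds
  have DB : ∀ τ q X : ℝ, 0 < τ → 0 < q → |X| ≤ ρ → q ^ 2 ≤ 4 * D * τ →
      |(τ / q * (1 + c * X) + c * q) - τ / q| ≤ 5 * κ * (τ / q) := by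
    intro τ q X hτ hq hX hq4
    have e1 : (τ / q * (1 + c * X) + c * q) - τ / q = τ / q * (c * X) + c * q := by ring
    rw [e1]
    have e2 : |c * q| ≤ 4 * κ * (τ / q) := by
      rw [abs_mul, abs_of_pos hq]
      have : |c| * q = |c| * (q ^ 2 / q) := by field_simp
      rw [this]
      have : q ^ 2 / q ≤ 4 * D * τ / q := by gcongr
      calc |c| * (q ^ 2 / q) ≤ |c| * (4 * D * τ / q) := mul_le_mul_of_nonneg_left this hc0
        _ = 4 * κ * (τ / q) := by rw [hκ]; ring
    have e3 : |τ / q * (c * X)| ≤ κ * (τ / q) := by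
      rw [abs_mul, abs_of_pos (div_pos hτ hq), mul_comm]
      exact mul_le_mul_of_nonneg_right (cX X hX) (div_pos hτ hq).le
    calc |τ / q * (c * X) + c * q| ≤ |τ / q * (c * X)| + |c * q| := abs_add_le _ _
      _ ≤ 5 * κ * (τ / q) := by linarith
  have hDLb : |DL - τL / qL| ≤ 5 * κ * (τL / qL) := by
    rw [hDL]; exact DB τL qL XL hτL qL0 hXL q4L
  have hDRb : |DR - τR / qR| ≤ 5 * κ * (τR / qR) := by
    rw [hDR]; exact DB τR qR XR hτR qR0 hXR q4R
  have rL0 : 0 < τL / qL := div_pos hτL qL0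
  have rR0 : 0 < τR / qR := div_pos hτR qR0
  have hDL1 : 95 / 100 * (τL / qL) ≤ DL := by
    have := (abs_le.mp hDLb).1
    nlinarith
  have hDR1 : 95 / 100 * (τR / qR) ≤ DR := by
    have := (abs_le.mp hDRb).1
    nlinarith
  have DL0 : 0 < DL := lt_of_lt_of_le (by positivity) hDL1
  have DR0 : 0 < DR := lt_of_lt_of_le (by positivity) hDR1
  have hqRd : qR * d ≤ e * (4 * D) := by
    have h1 : qR * d * τR ≤ e * (4 * D) * τR := by
      calc qR * d * τR = qR * (d * τR) := by ring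
        _ ≤ qR * (e * qR) := mul_le_mul_of_nonneg_left k7 qR0.le
        _ = e * qR ^ 2 := by ring
        _ ≤ e * (4 * D * τR) := mul_le_mul_of_nonneg_left q4R e0.le
        _ = e * (4 * D) * τR := by ring
    exact le_of_mul_le_mul_right h1 hτR
  have hWdiff : WR - WL = e * (1 + c * XL) + c * (qR * d) := by
    rw [hWR, hWL, he]
    have : XR = XL + d := by linarith
    rw [this]; ring
  have hWdiff' : WR - WL = e * (1 + c * XR) + c * (qL * d) := by
    rw [hWR, hWL, he]
    have : XR = XL + d := by linarith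
    rw [this]; ring
  have hE : |(WR - WL) - e| ≤ 5 * κ * e := by
    have h1 : (WR - WL) - e = e * (c * XL) + c * (qR * d) := by rw [hWdiff]; ring
    rw [h1]
    have h2 : |e * (c * XL)| ≤ κ * e := by
      rw [abs_mul, abs_of_pos e0, mul_comm]
      exact mul_le_mul_of_nonneg_right (cX XL hXL) e0.le
    have h3 : |c * (qR * d)| ≤ 4 * κ * e := by
      rw [abs_mul, abs_of_pos (mul_pos qR0 d0)]
      calc |c| * (qR * d) ≤ |c| * (e * (4 * D)) := mul_le_mul_of_nonneg_left hqRd hc0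
        _ = 4 * κ * e := by rw [hκ]; ring
    calc |e * (c * XL) + c * (qR * d)| ≤ |e * (c * XL)| + |c * (qR * d)| := abs_add_le _ _
      _ ≤ 5 * κ * e := by linarith
  have hS : |(WL + WR) - s| ≤ κ * s := by
    have h1 : (WL + WR) - s = qL * (c * XL) + qR * (c * XR) := by rw [hWL, hWR, hs]; ring
    rw [h1]
    calc |qL * (c * XL) + qR * (c * XR)| ≤ |qL * (c * XL)| + |qR * (c * XR)| := abs_add_le _ _
      _ = qL * |c * XL| + qR * |c * XR| := by rw [abs_mul qL, abs_mul qR, abs_of_pos qL0, abs_of_pos qR0]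
      _ ≤ qL * κ + qR * κ := add_le_add (mul_le_mul_of_nonneg_left (cX XL hXL) qL0.le)
          (mul_le_mul_of_nonneg_left (cX XR hXR) qR0.le)
      _ = κ * s := by rw [hs]; ring
  obtain ⟨E0, S0, hUu⟩ := ratio s e (WL + WR) (WR - WL) κ s0 e0 κ0 hcD hS hE
  have WL0 : 0 < WL := by
    rw [hWL]; apply mul_pos qL0
    have := (abs_le.mp (cX XL hXL)).1
    linarith
  set U := (WL + WR) / (WR - WL) with hU
  have u0 : 0 < s / e := div_pos s0 e0
  have U0 : 0 < U := div_pos S0 E0
  have hU1 : U ≤ 107 / 100 * (s / e) := by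
    have := (abs_le.mp hUu).2
    nlinarith
  have hcross : qL * τR ≤ qR * τL := by
    -- from k6: e * qL ≤ d * τL and hid
    have h1 : T * qL ≤ s * τL := by
      have h2 : d * (T * qL) ≤ d * (s * τL) := by
        calc d * (T * qL) = (d * T) * qL := by ring
          _ = (e * s) * qL := by rw [hid]
          _ = s * (e * qL) := by ring
          _ ≤ s * (d * τL) := mul_le_mul_of_nonneg_left k6 s0.le
          _ = d * (s * τL) := by ring
      exact le_of_mul_le_mul_left h2 d0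
    rw [hT, hs] at h1
    have h3 : (τL + τR) * qL = τL * qL + qL * τR := by ring
    have h4 : (qL + qR) * τL = τL * qL + qR * τL := by ring
    linarith
  have hsqd : qR ^ 2 - qL ^ 2 = d * T := by
    rw [sqR, sqL, hd, hT]; ring
  have hes : e * s = qR ^ 2 - qL ^ 2 := by rw [he, hs]; ring
  -- s qL/τL ≤ 8 D, s qR/τR ≤ 8 D
  have hsL : s * (qL / τL) ≤ 8 * D := by
    rw [mul_div_assoc', div_le_iff₀ hτL]
    have h1 : s * qL * τR ≤ 8 * D * τL * τR := by
      calc s * qL * τR = s * (qL * τR) := by ring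
        _ ≤ s * (qR * τL) := mul_le_mul_of_nonneg_left hcross s0.le
        _ ≤ (2 * qR) * (qR * τL) := mul_le_mul_of_nonneg_right (by rw [hs]; linarith) (by positivity)
        _ = 2 * τL * qR ^ 2 := by ring
        _ ≤ 2 * τL * (4 * D * τR) := mul_le_mul_of_nonneg_left q4R (by positivity)
        _ = 8 * D * τL * τR := by ring
    exact le_of_mul_le_mul_right h1 hτR
  have hsR : s * (qR / τR) ≤ 8 * D := by
    rw [mul_div_assoc', div_le_iff₀ hτR]
    calc s * qR ≤ (2 * qR) * qR := mul_le_mul_of_nonneg_right (by rw [hs]; linarith) qR0.le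
      _ = 2 * qR ^ 2 := by ring
      _ ≤ 2 * (4 * D * τR) := by linarith
      _ = 8 * D * τR := by ring
  refine ⟨DL0, DR0, WL0, by linarith, ?_, ?_, ?_, ?_, ?_, ?_⟩
  · have h1 : 0 ≤ κ * e := mul_nonneg κ0 e0.le
    have h2 : 10 * |c| * D * e = 10 * (κ * e) := by rw [hκ]; ring
    rw [h2]; linarith
  · have h1 : 0 ≤ κ * (τL / qL) := mul_nonneg κ0 rL0.le
    have h2 : 10 * |c| * D * (τL / qL) = 10 * (κ * (τL / qL)) := by rw [hκ]; ring
    rw [h2]; linarith
  · have h1 : 0 ≤ κ * (τR / qR) := mul_nonneg κ0 rR0.le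
    have h2 : 10 * |c| * D * (τR / qR) = 10 * (κ * (τR / qR)) := by rw [hκ]; ring
    rw [h2]; linarith
  · have h1 : 0 ≤ κ * (s / e) := mul_nonneg κ0 u0.le
    have h2 : 20 * |c| * D * (s / e) = 20 * (κ * (s / e)) := by rw [hκ]; ring
    rw [h2]; linarith
  · -- left
    set a := e * qL / (d * τL) with ha
    set A := (WR - WL) / (d * DL) with hA
    have ha1 : a ≤ 1 := by rw [ha, div_le_one (by positivity)]; exact k6
    have n0 : 0 ≤ qR * d - e * qL ^ 2 / τL := by
      have h1 : e * qL ^ 2 / τL ≤ qL * d := by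
        rw [div_le_iff₀ hτL]
        calc e * qL ^ 2 = e * qL * qL := by ring
          _ ≤ d * τL * qL := mul_le_mul_of_nonneg_right k6 qL0.le
          _ = qL * d * τL := by ring
      have h2 : qL * d ≤ qR * d := mul_le_mul_of_nonneg_right qLR.le d0.le
      linarith
    have n1 : qR * d - e * qL ^ 2 / τL ≤ 2 * d * e := n1L τL τR qL qR hτL hLR qL0 qLR hid
    have hAa : A - a = c * (qR * d - e * qL ^ 2 / τL) / (d * DL) := by
      have h1 : a = (e * (qL / τL)) * DL / (d * DL) := by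
        rw [ha]; field_simp
      rw [hA, h1, ← sub_div]
      congr 1
      rw [hWdiff, hDL]
      field_simp
      ring
    have hdec : U * (1 - A) - s / e * (1 - a) = (U - s / e) * (1 - a) - U * (A - a) := by ring
    rw [hdec]
    have t1 : |(U - s / e) * (1 - a)| ≤ 7 * κ := by
      rw [abs_mul, abs_of_nonneg (by linarith : (0 : ℝ) ≤ 1 - a)]
      calc |U - s / e| * (1 - a) ≤ 7 * κ * (s / e) * (1 - a) :=
            mul_le_mul_of_nonneg_right hUu (by linarith)
        _ = 7 * κ * (s / e * (1 - a)) := by ring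
        _ = 7 * κ * (1 - s / T * qL / τL) := by rw [hu4]
        _ ≤ 7 * κ * 1 := mul_le_mul_of_nonneg_left (by linarith) (by positivity)
        _ = 7 * κ := by ring
    have t2 : |U * (A - a)| ≤ 20 * κ := by
      rw [hAa, abs_mul, abs_of_pos U0, abs_div, abs_mul, abs_of_nonneg n0, abs_of_pos (mul_pos d0 DL0)]
      have h1 : |c| * (qR * d - e * qL ^ 2 / τL) / (d * DL) ≤ |c| * (2 * d * e) / (d * (95 / 100 * (τL / qL))) := by
        gcongr
      have h2 : |c| * (2 * d * e) / (d * (95 / 100 * (τL / qL))) = 200 / 95 * |c| * e * (qL / τL) := by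
        field_simp; ring
      have h3 : 0 ≤ 200 / 95 * |c| * e * (qL / τL) := by positivity
      calc U * (|c| * (qR * d - e * qL ^ 2 / τL) / (d * DL))
          ≤ (107 / 100 * (s / e)) * (200 / 95 * |c| * e * (qL / τL)) := by
            apply mul_le_mul hU1 (h1.trans h2.le) _ (by positivity)
            apply div_nonneg (mul_nonneg hc0 n0) (by positivity)
        _ = 107 / 100 * (200 / 95) * |c| * (s * (qL / τL)) := by field_simp
        _ ≤ 107 / 100 * (200 / 95) * |c| * (8 * D) := mul_le_mul_of_nonneg_left hsL (by positivity)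
        _ = 107 / 100 * (200 / 95) * 8 * κ := by rw [hκ]; ring
        _ ≤ 20 * κ := by linarith
    calc |(U - s / e) * (1 - a) - U * (A - a)| ≤ |(U - s / e) * (1 - a)| + |U * (A - a)| := abs_sub _ _
      _ ≤ 7 * κ + 20 * κ := add_le_add t1 t2
      _ ≤ 100 * κ := by linarith
      _ = 100 * |c| * D := by rw [hκ]; ring
  · -- right
    set b := e * qR / (d * τR) with hb
    set B := (WR - WL) / (d * DR) with hB
    have hb1 : 1 ≤ b := by rw [hb, one_le_div (by positivity)]; exact k7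
    have n0 : 0 ≤ e * qR ^ 2 / τR - qL * d := by
      have h1 : qR * d ≤ e * qR ^ 2 / τR := by
        rw [le_div_iff₀ hτR]
        calc qR * d * τR = d * τR * qR := by ring
          _ ≤ e * qR * qR := mul_le_mul_of_nonneg_right k7 qR0.le
          _ = e * qR ^ 2 := by ring
      have h2 : qL * d ≤ qR * d := mul_le_mul_of_nonneg_right qLR.le d0.le
      linarith
    have n1 : e * qR ^ 2 / τR - qL * d ≤ 2 * d * e := n1R τL τR qL qR hτL hLR qL0 qLR hid
    have hBb : B - b = -(c * (e * qR ^ 2 / τR - qL * d)) / (d * DR) := by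
      have h1 : b = (e * (qR / τR)) * DR / (d * DR) := by
        rw [hb]; field_simp
      rw [hB, h1, ← sub_div]
      congr 1
      rw [hWdiff', hDR]
      field_simp
      ring
    have hdec : U * (B - 1) - s / e * (b - 1) = (U - s / e) * (b - 1) + U * (B - b) := by ring
    rw [hdec]
    have t1 : |(U - s / e) * (b - 1)| ≤ 7 * κ := by
      rw [abs_mul, abs_of_nonneg (by linarith : (0 : ℝ) ≤ b - 1)]
      calc |U - s / e| * (b - 1) ≤ 7 * κ * (s / e) * (b - 1) :=
            mul_le_mul_of_nonneg_right hUu (by linarith)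
        _ = 7 * κ * (s / e * (b - 1)) := by ring
        _ = 7 * κ * (1 - s / T * qR / τR) := by rw [hu5]
        _ ≤ 7 * κ * 1 := by
            apply mul_le_mul_of_nonneg_left _ (by positivity)
            have : 0 ≤ s / T * qR / τR := by positivity
            linarith
        _ = 7 * κ := by ring
    have t2 : |U * (B - b)| ≤ 20 * κ := by
      rw [hBb, abs_mul, abs_of_pos U0, abs_div, abs_neg, abs_mul, abs_of_nonneg n0, abs_of_pos (mul_pos d0 DR0)]
      have h1 : |c| * (e * qR ^ 2 / τR - qL * d) / (d * DR) ≤ |c| * (2 * d * e) / (d * (95 / 100 * (τR / qR))) := by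
        gcongr
      have h2 : |c| * (2 * d * e) / (d * (95 / 100 * (τR / qR))) = 200 / 95 * |c| * e * (qR / τR) := by
        field_simp; ring
      calc U * (|c| * (e * qR ^ 2 / τR - qL * d) / (d * DR))
          ≤ (107 / 100 * (s / e)) * (200 / 95 * |c| * e * (qR / τR)) := by
            apply mul_le_mul hU1 (h1.trans h2.le) _ (by positivity)
            apply div_nonneg (mul_nonneg hc0 n0) (by positivity)
        _ = 107 / 100 * (200 / 95) * |c| * (s * (qR / τR)) := by field_simp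
        _ ≤ 107 / 100 * (200 / 95) * |c| * (8 * D) := mul_le_mul_of_nonneg_left hsR (by positivity)
        _ = 107 / 100 * (200 / 95) * 8 * κ := by rw [hκ]; ring
        _ ≤ 20 * κ := by linarith
    calc |(U - s / e) * (b - 1) + U * (B - b)| ≤ |(U - s / e) * (b - 1)| + |U * (B - b)| := abs_add_le _ _
      _ ≤ 7 * κ + 20 * κ := add_le_add t1 t2
      _ ≤ 100 * κ := by linarith
      _ = 100 * |c| * D := by rw [hκ]; ring

end Pool.Agent.Helper90.CV.L2
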