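import Pool.Agent.Helper36.CV.StmtsR

set_option autoImplicit false

namespace Pool.Agent.Helper90.CV.R1

open Pool.Agent.Helper36.CV

/-- reflection of witnesses -/
theorem wit_neg (ε a b l r : ℝ) (h : Wit ε a b l r) : Wit ε (-b) (-a) (-r) (-l) := by
  have e1 : -l - -r = r - l := by ring
  have e2 : -a - -b = b - a := by ring
  have e3 : |(-r + -l) / 2 - (-b + -a) / 2| = |(l + r) / 2 - (a + b) / 2| := by
    rw [← abs_neg]; congr 1; ring
  have e4 : ((-r + -l) / 2 - (-b + -a) / 2) ^ 2 = ((l + r) / 2 - (a + b) / 2) ^ 2 := by ring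
  unfold Wit
  rw [e1, e2, e3, e4]
  rcases h with h | h | ⟨h, h' | h'⟩
  · left; constructor <;> linarith [h.1, h.2]
  · right; left; exact ⟨h.1, by linarith [h.2.2], by linarith [h.2.1]⟩
  · right; right; exact ⟨h, Or.inl ⟨by linarith [h'.2], by linarith [h'.1]⟩⟩
  · right; right; exact ⟨h, Or.inr h'⟩

theorem core (ε a b l r r0 : ℝ) (hε : 0 < ε) (hε1 : ε ≤ 1 / 100) (hlr : l < r) (hz0 : l < r0)
    (hz : r0 - l ≤ 101 / 100 * ε * (r - l)) (hab : 21 / 20 * (r - l) ≤ b - a)
    (hw : Wit ε a b l r0) : Wit ε a b l r := by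
  set ρ := r - l with hρ
  set z := r0 - l with hzd
  have ρ0 : 0 < ρ := by rw [hρ]; linarith
  have z0 : 0 < z := by rw [hzd]; linarith
  have hερ : 0 < ε * ρ := by positivity
  have hzρ : z ≤ 2 / 100 * ρ := by
    have : ε * ρ ≤ 1 / 100 * ρ := mul_le_mul_of_nonneg_right hε1 ρ0.le
    nlinarith
  have hεz : ε * z ≤ 1 / 100 * z := mul_le_mul_of_nonneg_right hε1 z0.le
  have hr0r : r0 < r := by
    have : z < ρ := by linarith
    rw [hzd, hρ] at this; linarith
  -- if the gap meets [l,r] we are done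
  by_cases hm : a ≤ r ∧ l ≤ b
  · exact Or.inr (Or.inr ⟨hab, Or.inl hm⟩)
  set c := (a + b) / 2 with hc
  set h := (b - a) / 2 with hh
  have hh0 : 21 / 40 * ρ ≤ h := by rw [hh]; linarith
  have h0 : 0 < h := by linarith
  by_cases hbl : b < l
  · -- gap on the left
    have hcl : c + h = b := by rw [hc, hh]; ring
    rcases hw with hw | hw | ⟨-, hw | hw⟩
    · exfalso
      have := hw.2
      linarith
    · exfalso
      have := hw.2.2
      linarith
    · exfalso; linarith [hw.2]
    · have hmid : (l + r0) / 2 - c = l + z / 2 - c := by rw [hzd]; ring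
      set dL := (l + r0) / 2 - c with hdL
      have dLh : h < dL := by rw [hmid]; linarith
      have dL0 : 0 < dL := h0.trans dLh
      rw [abs_of_pos dL0] at hw
      have hw2 := hw.2
      have k1 : 8 * ε * dL * (dL ^ 2 - h ^ 2) ≤ 101 / 100 * (ε * ρ) * h ^ 2 := by
        refine hw2.trans ?_
        apply mul_le_mul_of_nonneg_right _ (sq_nonneg h)
        linarith
      have k2 : 16 * (dL - h) ≤ 101 / 100 * ρ := by
        have h1 : ε * h ^ 2 * (16 * (dL - h)) ≤ ε * h ^ 2 * (101 / 100 * ρ) := by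
          have h2 : 2 * h ^ 2 ≤ dL * (dL + h) := by nlinarith
          have h3 : ε * (dL - h) * (8 * (2 * h ^ 2)) ≤ ε * (dL - h) * (8 * (dL * (dL + h))) := by
            apply mul_le_mul_of_nonneg_left _ (mul_nonneg hε.le (by linarith))
            linarith
          have h4 : ε * (dL - h) * (8 * (dL * (dL + h))) = 8 * ε * dL * (dL ^ 2 - h ^ 2) := by ring
          have h5 : ε * (dL - h) * (8 * (2 * h ^ 2)) = ε * h ^ 2 * (16 * (dL - h)) := by ring
          have h6 : 101 / 100 * (ε * ρ) * h ^ 2 = ε * h ^ 2 * (101 / 100 * ρ) := by ring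
          linarith
        exact le_of_mul_le_mul_left h1 (by positivity)
      right; right
      refine ⟨hab, Or.inr ?_⟩
      have hmid2 : (l + r) / 2 - c = dL + (ρ - z) / 2 := by rw [hmid, hρ]; ring
      rw [hmid2]
      set d := dL + (ρ - z) / 2 with hd
      have dh : h < d := by rw [hd]; linarith
      have d0 : 0 < d := h0.trans dh
      rw [abs_of_pos d0]
      refine ⟨dh, ?_⟩
      have k3 : d - h ≤ 57 / 100 * ρ := by rw [hd]; linarith
      have k4 : d ≤ 21 / 10 * h := by linarith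
      have k5 : d + h ≤ 31 / 10 * h := by linarith
      have k6 : d * (d + h) ≤ (21 / 10 * h) * (31 / 10 * h) :=
        mul_le_mul k4 k5 (by linarith) (by positivity)
      have k7 : (d - h) * (d * (d + h)) ≤ (57 / 100 * ρ) * ((21 / 10 * h) * (31 / 10 * h)) :=
        mul_le_mul k3 k6 (by positivity) (by positivity)
      have k8 : 8 * ε * d * (d ^ 2 - h ^ 2) = 8 * ε * ((d - h) * (d * (d + h))) := by ring
      rw [k8]
      have k9 : 0 ≤ ρ * h ^ 2 := by positivity
      calc 8 * ε * ((d - h) * (d * (d + h))) ≤ 8 * ε * ((57 / 100 * ρ) * ((21 / 10 * h) * (31 / 10 * h))) :=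
            mul_le_mul_of_nonneg_left k7 (by positivity)
        _ = (8 * (57 / 100) * (21 / 10) * (31 / 10) * ε) * (ρ * h ^ 2) := by ring
        _ ≤ 1 * (ρ * h ^ 2) := by
            apply mul_le_mul_of_nonneg_right _ k9
            linarith
        _ = ρ * h ^ 2 := one_mul _
  · -- gap on the right
    exfalso
    have har : r < a := by
      by_contra hcon
      exact hm ⟨not_lt.mp hcon, not_lt.mp hbl⟩
    have hcl : c - h = a := by rw [hc, hh]; ring
    rcases hw with hw | hw | ⟨-, hw | hw⟩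
    · have := hw.1
      linarith
    · have := hw.2.1
      linarith
    · linarith [hw.1]
    · have hmid : (l + r0) / 2 - c = l + z / 2 - c := by rw [hzd]; ring
      set dL := c - (l + r0) / 2 with hdL
      have hdL' : (l + r0) / 2 - c = -dL := by rw [hdL]; ring
      have dLh : h + 99 / 100 * ρ ≤ dL := by
        have : dL = c - (l + z / 2) := by rw [hdL, hzd]; ring
        rw [this]
        have : r = l + ρ := by rw [hρ]; ring
        linarith
      have dL0 : 0 < dL := by linarith
      rw [hdL', abs_neg, abs_of_pos dL0] at hw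
      have hw2 := hw.2
      have k1 : 8 * ε * dL * ((-dL) ^ 2 - h ^ 2) ≤ 101 / 100 * (ε * ρ) * h ^ 2 := by
        refine hw2.trans ?_
        apply mul_le_mul_of_nonneg_right _ (sq_nonneg h)
        linarith
      have h2 : 2 * h ^ 2 ≤ dL * (dL + h) := by nlinarith
      have h3 : (99 / 100 * ρ) * (2 * h ^ 2) ≤ (dL - h) * (dL * (dL + h)) :=
        mul_le_mul (by linarith) h2 (by positivity) (by linarith)
      have h4 : 8 * ε * dL * ((-dL) ^ 2 - h ^ 2) = 8 * ε * ((dL - h) * (dL * (dL + h))) := by ring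
      have h5 : 8 * ε * ((99 / 100 * ρ) * (2 * h ^ 2)) ≤ 8 * ε * ((dL - h) * (dL * (dL + h))) :=
        mul_le_mul_of_nonneg_left h3 (by positivity)
      have h6 : 0 < ε * ρ * h ^ 2 := by positivity
      have h7 : 8 * ε * ((99 / 100 * ρ) * (2 * h ^ 2)) = 8 * (99 / 100) * 2 * (ε * ρ * h ^ 2) := by ring
      have h8 : 101 / 100 * (ε * ρ) * h ^ 2 = 101 / 100 * (ε * ρ * h ^ 2) := by ring
      linarith

theorem st_R1 (_ : ST_R0) : ST_R1 := by
  intro cK hcK
  refine ⟨1 / (1000 * cK), by positivity, ?_⟩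
  intro C ε τ l r l0 r0 l1 r1 l2 r2 hε hε0 hk hst a b hG hw
  have hcK0 : 0 < cK := by linarith
  have hεc : cK * ε ≤ 1 / 1000 := by
    rw [le_div_iff₀ (by positivity)] at hε0
    nlinarith
  have hε1 : ε ≤ 1 / 1000 := by nlinarith
  have hρ : 0 < r - l := by linarith [hk.lt]
  have hτ : |τ| ≤ 1 := by
    rcases hk.tt with h | h | h <;> rw [h] <;> norm_num
  have hε3 : cK * ε ^ 3 * (r - l) ≤ 1 / 1000 * ε * (r - l) := by
    apply mul_le_mul_of_nonneg_right _ hρ.le
    have : cK * ε ^ 3 = (cK * ε) * (ε * ε) := by ring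
    rw [this]
    have h1 : ε * ε ≤ 1 * ε := mul_le_mul_of_nonneg_right (by linarith) hε.le
    calc (cK * ε) * (ε * ε) ≤ (1 / 1000) * (1 * ε) :=
          mul_le_mul hεc h1 (by positivity) (by norm_num)
      _ = 1 / 1000 * ε := by ring
  have hεε : ε * ε * (r - l) ≤ 1 / 1000 * ε * (r - l) := by
    apply mul_le_mul_of_nonneg_right _ hρ.le
    exact mul_le_mul_of_nonneg_right hε1 hε.le
  have hεε0 : 0 ≤ ε * ε * (r - l) := by positivity
  have hτ1 := abs_le.mp hτ
  have hτε : |2 * ε * ε * τ * (r - l)| ≤ 2 * (ε * ε * (r - l)) := by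
    have : 2 * ε * ε * τ * (r - l) = (2 * (ε * ε * (r - l))) * τ := by ring
    rw [this, abs_mul, abs_of_nonneg (by positivity)]
    calc 2 * (ε * ε * (r - l)) * |τ| ≤ 2 * (ε * ε * (r - l)) * 1 :=
          mul_le_mul_of_nonneg_left hτ (by positivity)
      _ = 2 * (ε * ε * (r - l)) := mul_one _
  have hτε' := abs_le.mp hτε
  have hερ : 0 < ε * (r - l) := by positivity
  by_contra hcon
  have hab : 21 / 20 * (r - l) ≤ b - a := not_lt.mp hcon
  apply hst a b hG
  rcases hw with hw | hw
  · have hn := abs_le.mp hk.n0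
    have e1 : ε * (1 + 2 * ε * τ) * (r - l) = ε * (r - l) + 2 * ε * ε * τ * (r - l) := by ring
    rw [e1] at hn
    rw [hk.e0] at hw hn
    apply core ε a b l r r0 hε (by linarith) hk.lt _ _ hab hw
    · have := hn.1
      linarith
    · have := hn.2
      linarith
  · have hn := abs_le.mp hk.n2
    have e1 : ε * (1 - 2 * ε * τ) * (r - l) = ε * (r - l) - 2 * ε * ε * τ * (r - l) := by ring
    rw [e1] at hn
    rw [hk.e2] at hw hn
    have hw' := wit_neg ε a b l2 r hw
    have e2 : -l - -r = r - l := by ring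
    have := core ε (-b) (-a) (-r) (-l) (-l2) hε (by linarith) (by linarith [hk.lt]) (by linarith [hn.1])
      (by rw [e2]; linarith [hn.2]) (by rw [e2]; linarith) hw'
    have h2 := wit_neg _ _ _ _ _ this
    rwa [neg_neg, neg_neg, neg_neg, neg_neg] at h2

end Pool.Agent.Helper90.CV.R1
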