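import Pool.Agent.Helper36.CV.StmtsR

set_option autoImplicit false

namespace Pool.Agent.Helper90.CV.R2

open Pool.Agent.Helper36.CV Set

/-- one gap which is a witness of an end child -/
theorem one (P1 : ST_P1) (P2 : ST_P2) (P3 : ST_P3) (Q4 : ST_Q4)
    (ε Hm Hp : ℝ) (C : Set ℝ) (cd : CD Hm Hp C) (hP : Par ε Hm Hp) (hε : ε ≤ 1 / 10 ^ 5)
    (x ρ x' z : ℝ) (V : Gap cd) (hρ : 0 < ρ) (hx' : |x' - x| ≤ ρ / 2)
    (hz1 : 997 / 1000 * (ε * ρ) ≤ z) (hz2 : z ≤ 1003 / 1000 * (ε * ρ))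
    (w1 : (1 - 26 / 10 * ε) * z ≤ V.s) (w2 : V.a ≤ x' + z / (16 * ε)) (w3 : x' - z / (16 * ε) ≤ V.b)
    (hs : V.s < 21 / 20 * ρ) :
    ∃ t ∈ Icc V.a V.b, |t - x'| ≤ 63 / 1000 * ρ ∧ |V.mu| * Yf cd x ρ ≤ 19 / 10 := by
  have hε0 : 0 < ε := hP.1
  have hzε : z / (16 * ε) ≤ 63 / 1000 * ρ := by
    rw [div_le_iff₀ (by positivity)]
    nlinarith [mul_pos hε0 hρ]
  have hab : V.a < V.b := V.lt
  -- the point
  obtain ⟨t, ht, htx⟩ : ∃ t ∈ Icc V.a V.b, |t - x'| ≤ 63 / 1000 * ρ := by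
    refine ⟨max V.a (x' - 63 / 1000 * ρ), ⟨le_max_left _ _, max_le hab.le (by linarith)⟩, ?_⟩
    rw [abs_le]
    constructor
    · linarith [le_max_right V.a (x' - 63 / 1000 * ρ)]
    · have : max V.a (x' - 63 / 1000 * ρ) ≤ x' + 63 / 1000 * ρ :=
        max_le (by linarith) (by linarith)
      linarith
  refine ⟨t, ht, htx, ?_⟩
  obtain ⟨-, -, hY, hY4, -, -⟩ := P1 Hm Hp C cd
  have hVc : V.c = (V.a + V.b) / 2 := rfl
  have hVs : V.s = V.b - V.a := rfl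
  have hs0 : 0 < V.s := by rw [hVs]; linarith
  have htc : |t - V.c| ≤ V.s / 2 := by
    rw [abs_le, hVc, hVs]
    constructor <;> linarith [ht.1, ht.2]
  have hcx : |V.c - x| ≤ 109 / 100 * ρ := by
    have e1 : V.c - x = -(t - V.c) + (t - x') + (x' - x) := by ring
    rw [e1]
    calc |-(t - V.c) + (t - x') + (x' - x)| ≤ |-(t - V.c) + (t - x')| + |x' - x| := abs_add_le _ _
      _ ≤ |-(t - V.c)| + |t - x'| + |x' - x| := by linarith [abs_add_le (-(t - V.c)) (t - x')]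
      _ = |t - V.c| + |t - x'| + |x' - x| := by rw [abs_neg]
      _ ≤ 109 / 100 * ρ := by linarith
  have hJ : Yf cd x ρ ≤ 33 / 10 * Yf cd V.c ρ := by
    have h1 := hY4 V.c x ρ hρ (by linarith)
    have hY0 : 0 < Yf cd V.c ρ := (hY V.c ρ ρ hρ le_rfl).1
    have h2 : |V.c - x| / ρ ≤ 109 / 100 := by rw [div_le_iff₀ hρ]; exact hcx
    have h3 : 0 ≤ |V.c - x| / ρ := by positivity
    have h4 : (|V.c - x| / ρ) ^ 2 ≤ (109 / 100) ^ 2 := pow_le_pow_left₀ h3 h2 2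
    refine h1.trans (mul_le_mul_of_nonneg_right ?_ hY0.le)
    norm_num at h4
    linarith
  have hN : ∀ t ∈ Icc V.a V.b, Nf cd t = V.N := fun t ht => V.lab t ht
  have h3 := (P3 Hm Hp C cd V.a V.b V.N hab hN).2.2 ρ hρ
  have hkk : KI cd V.a V.b ((V.a + V.b) / 2) = V.kk := rfl
  have hkk0 : 0 < V.kk := ((P2 Hm Hp C cd hP.2.1).2.2.2.1 V).2.2.2.2.2.1
  have hYc : Yf cd V.c ρ ≤ 113 / 100 * ρ * V.kk := by
    have h4 : Yf cd V.c ρ ≤ ‖cd.f (((V.a + V.b) / 2 : ℝ) + (ρ : ℂ) * Complex.I) - V.N‖ := by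
      have h5 : Yf cd V.c ρ = (cd.f (((V.a + V.b) / 2 : ℝ) + (ρ : ℂ) * Complex.I) - V.N).im := by
        rw [Complex.sub_im, Complex.ofReal_im, sub_zero]; rfl
      rw [h5]
      exact (le_abs_self _).trans (Complex.abs_im_le_norm _)
    refine h4.trans (h3.trans ?_)
    rw [hkk]
    apply mul_le_mul_of_nonneg_right _ hkk0.le
    rw [Real.sqrt_le_left (by positivity)]
    have h6 : (V.b - V.a) ^ 2 ≤ (21 / 20 * ρ) ^ 2 := by
      rw [← hVs]; exact pow_le_pow_left₀ hs0.le hs.le 2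
    nlinarith [sq_nonneg ρ]
  have hmu := (Q4 ε Hm Hp C cd hP hε).2.1 V
  have hs1 : 99 / 100 * (ε * ρ) ≤ V.s := by
    refine le_trans ?_ w1
    have h7 : 0 < ε * ρ := by positivity
    have h8 : (1 - 26 / 10 * ε) * (997 / 1000 * (ε * ρ)) ≤ (1 - 26 / 10 * ε) * z :=
      mul_le_mul_of_nonneg_left hz1 (by linarith)
    refine le_trans ?_ h8
    nlinarith
  have hmu0 : 0 ≤ |V.mu| * V.kk := by positivity
  have h9 : |V.mu| * V.kk * ρ ≤ 506 / 1000 := by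
    have h10 : |V.mu| * V.kk * (99 / 100 * (ε * ρ)) ≤ ε / 2 * (1 + 98 * ε) :=
      (mul_le_mul_of_nonneg_left hs1 hmu0).trans hmu
    have h11 : ε * (99 / 100 * (|V.mu| * V.kk * ρ)) ≤ ε * (1 / 2 * (1 + 98 * ε)) := by
      calc ε * (99 / 100 * (|V.mu| * V.kk * ρ)) = |V.mu| * V.kk * (99 / 100 * (ε * ρ)) := by ring
        _ ≤ ε / 2 * (1 + 98 * ε) := h10
        _ = ε * (1 / 2 * (1 + 98 * ε)) := by ring
    have h12 := le_of_mul_le_mul_left h11 hε0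
    linarith
  calc |V.mu| * Yf cd x ρ ≤ |V.mu| * (33 / 10 * (113 / 100 * ρ * V.kk)) := by
        apply mul_le_mul_of_nonneg_left _ (abs_nonneg _)
        exact hJ.trans (mul_le_mul_of_nonneg_left hYc (by norm_num))
    _ = 33 / 10 * (113 / 100) * (|V.mu| * V.kk * ρ) := by ring
    _ ≤ 33 / 10 * (113 / 100) * (506 / 1000) := mul_le_mul_of_nonneg_left h9 (by norm_num)
    _ ≤ 19 / 10 := by norm_num

theorem st_R2 (P1 : ST_P1) (P2 : ST_P2) (P3 : ST_P3) (Q4 : ST_Q4) (R0 : ST_R0) : ST_R2 := by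
  intro cK hcK
  obtain ⟨ε1, hε1, R0⟩ := R0
  have hcK0 : 0 < cK := by linarith
  refine ⟨min ε1 (1 / (10 ^ 5 * cK)), lt_min hε1 (by positivity), ?_⟩
  intro ε Hm Hp C cd hP hεm τ l r l0 r0 l1 r1 l2 r2 VL VR hpair
  have hε0 : 0 < ε := hP.1
  have hεε1 : ε ≤ ε1 := hεm.trans (min_le_left _ _)
  have hεcK : ε ≤ 1 / (10 ^ 5 * cK) := hεm.trans (min_le_right _ _)
  have hεc : cK * ε ≤ 1 / 10 ^ 5 := by
    rw [le_div_iff₀ (by positivity)] at hεcK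
    rw [le_div_iff₀ (by positivity)]
    linarith
  have hε5 : ε ≤ 1 / 10 ^ 5 := by nlinarith
  set x := (l + r) / 2 with hx
  set ρ := r - l with hρd
  have hk := hpair.kids
  have hρ : 0 < ρ := by rw [hρd]; linarith [hk.lt]
  have hτ : |τ| ≤ 1 := by
    rcases hk.tt with h | h | h <;> rw [h] <;> norm_num
  have hε3 : cK * ε ^ 3 * ρ ≤ 1 / 1000 * (ε * ρ) := by
    have : cK * ε ^ 3 * ρ = (cK * ε) * (ε * (ε * ρ)) := by ring
    rw [this]
    have h1 : ε * (ε * ρ) ≤ 1 * (ε * ρ) := mul_le_mul_of_nonneg_right (by linarith) (by positivity)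
    calc (cK * ε) * (ε * (ε * ρ)) ≤ (1 / 10 ^ 5) * (1 * (ε * ρ)) :=
          mul_le_mul hεc h1 (by positivity) (by norm_num)
      _ ≤ 1 / 1000 * (ε * ρ) := by
          have : 0 ≤ ε * ρ := by positivity
          linarith
  have hερ : 0 < ε * ρ := by positivity
  have hτε : |2 * ε * τ * (ε * ρ)| ≤ 1 / 1000 * (ε * ρ) := by
    rw [abs_mul, abs_mul, abs_of_pos hερ, abs_of_pos (by linarith : 0 < 2 * ε)]
    apply mul_le_mul_of_nonneg_right _ hερ.le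
    calc 2 * ε * |τ| ≤ 2 * ε * 1 := mul_le_mul_of_nonneg_left hτ (by positivity)
      _ ≤ 1 / 1000 := by linarith
  have hτε' := abs_le.mp hτε
  have e0 : l0 = l := hk.e0
  have e2 : r2 = r := hk.e2
  have n0 := abs_le.mp hk.n0
  have n2 := abs_le.mp hk.n2
  have f0 : ε * (1 + 2 * ε * τ) * (r - l) = ε * ρ + 2 * ε * τ * (ε * ρ) := by rw [hρd]; ring
  have f2 : ε * (1 - 2 * ε * τ) * (r - l) = ε * ρ - 2 * ε * τ * (ε * ρ) := by rw [hρd]; ring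
  rw [f0] at n0
  rw [f2] at n2
  have z1 : 997 / 1000 * (ε * ρ) ≤ r0 - l0 := by linarith
  have z2 : r0 - l0 ≤ 1003 / 1000 * (ε * ρ) := by linarith
  have z3 : 997 / 1000 * (ε * ρ) ≤ r2 - l2 := by linarith
  have z4 : r2 - l2 ≤ 1003 / 1000 * (ε * ρ) := by linarith
  have hερ1 : ε * ρ ≤ 1 / 1000 * ρ := mul_le_mul_of_nonneg_right (by linarith) hρ.le
  obtain ⟨a1, a2, a3, -⟩ := (R0 ε VL.a VL.b l0 r0 hε0 hεε1 VL.lt (by linarith)).2 hpair.wL
  obtain ⟨b1, b2, b3, -⟩ := (R0 ε VR.a VR.b l2 r2 hε0 hεε1 VR.lt (by linarith)).2 hpair.wR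
  have hxL : |(l0 + r0) / 2 - x| ≤ ρ / 2 := by
    rw [abs_le, hx, e0]
    constructor <;> linarith
  have hxR : |(l2 + r2) / 2 - x| ≤ ρ / 2 := by
    rw [abs_le, hx, e2]
    constructor <;> linarith
  obtain ⟨tL, htL, htLx, hmuL⟩ := one P1 P2 P3 Q4 ε Hm Hp C cd hP hε5 x ρ ((l0 + r0) / 2) (r0 - l0) VL hρ hxL
    z1 z2 a1 a2 a3 hpair.sL
  obtain ⟨tR, htR, htRx, hmuR⟩ := one P1 P2 P3 Q4 ε Hm Hp C cd hP hε5 x ρ ((l2 + r2) / 2) (r2 - l2) VR hρ hxR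
    z3 z4 b1 b2 b3 hpair.sR
  obtain ⟨-, -, hY, -, -, hY6⟩ := P1 Hm Hp C cd
  have hJ0 : 0 < Yf cd x ρ := (hY x ρ ρ hρ le_rfl).1
  obtain ⟨-, -, -, -, hord, heq, -, hAR, -⟩ := P2 Hm Hp C cd hP.2.1
  have htLa := abs_le.mp htLx
  have htRa := abs_le.mp htRx
  have hxLa := abs_le.mp hxL
  have hxRa := abs_le.mp hxR
  have hbd : VL.b < VR.a ∧ VL.N < VR.N := by
    rcases lt_trichotomy VL.a VR.a with h | h | h
    · exact hord VL VR h
    · exact absurd (heq VL VR h) hpair.ne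
    · exfalso
      have h1 := (hord VR VL h).1
      have h2 : tR ≤ VR.b := htR.2
      have h3 : VL.a ≤ tL := htL.1
      linarith
  set p := VR.N - VL.N with hp
  have hp0 : 0 < p := by rw [hp]; linarith [hbd.2]
  have hp12 : p ≤ 12 * Yf cd x ρ := by
    have h1 := hY6 x ρ tR tL hρ (by rw [abs_le]; constructor <;> linarith)
      (by rw [abs_le]; constructor <;> linarith)
    have h2 : Nf cd tR = VR.N := VR.lab tR htR
    have h3 : Nf cd tL = VL.N := VL.lab tL htL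
    rw [h2, h3, ← hp, abs_of_pos hp0] at h1
    exact h1
  have hmeet : VL.Meets x (ρ / ε ^ 3) := by
    have h1 : ρ ≤ ρ / ε ^ 3 := by
      rw [le_div_iff₀ (by positivity)]
      have : ε ^ 3 ≤ 1 := pow_le_one₀ hε0.le (by linarith)
      nlinarith
    constructor
    · linarith [htL.1]
    · linarith [htL.2]
  have hbig := hpair.good.big VL hmeet
  have hJ4 : Yf cd x ρ ≤ 2 * ε ^ 4 := by
    have h1 : 1 / ε ^ 4 * Yf cd x ρ ≤ 19 / 10 :=
      (mul_le_mul_of_nonneg_right hbig hJ0.le).trans hmuL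
    rw [div_mul_eq_mul_div, one_mul, div_le_iff₀ (by positivity)] at h1
    have : 0 < ε ^ 4 := by positivity
    linarith
  have hJ3 : Yf cd x ρ ≤ ε ^ 3 := by
    refine hJ4.trans ?_
    have : 2 * ε ^ 4 = (2 * ε) * ε ^ 3 := by ring
    rw [this]
    have h2 : (2 * ε) * ε ^ 3 ≤ 1 * ε ^ 3 := mul_le_mul_of_nonneg_right (by linarith) (by positivity)
    linarith
  have hJs : Yf cd x ρ ≤ 1 / 10 ^ 5 := by
    refine hJ3.trans ?_
    have : ε ^ 3 ≤ ε := by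
      have h1 : ε ^ 3 = ε * ε ^ 2 := by ring
      rw [h1]
      have h2 : ε ^ 2 ≤ 1 := pow_le_one₀ hε0.le (by linarith)
      nlinarith
    linarith
  refine ⟨hbd.1, ?_, hp12, by linarith, by linarith, hJ3⟩
  have hAR1 := hAR VL VR hpair.ne
  have h1 : |VL.N - VR.N| = p := by rw [abs_sub_comm, ← hp, abs_of_pos hp0]
  rw [h1] at hAR1
  have h2 : |VL.mu - VR.mu| * Yf cd x ρ ≤ 38 / 10 := by
    have h3 : |VL.mu - VR.mu| ≤ |VL.mu| + |VR.mu| := abs_sub _ _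
    have h4 := mul_le_mul_of_nonneg_right h3 hJ0.le
    linarith
  have h5 : Yf cd x ρ ≤ p * (p * Yf cd x ρ + |VL.mu - VR.mu| * Yf cd x ρ) := by
    have := mul_le_mul_of_nonneg_right hAR1 hJ0.le
    linarith
  have h6 : p * Yf cd x ρ ≤ 2 / 10 := by
    have h7 : p * Yf cd x ρ ≤ (12 * Yf cd x ρ) * (1 / 10 ^ 5) :=
      mul_le_mul hp12 hJs hJ0.le (by linarith)
    linarith
  have h8 : p * (p * Yf cd x ρ + |VL.mu - VR.mu| * Yf cd x ρ) ≤ p * 4 :=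
    mul_le_mul_of_nonneg_left (by linarith) hp0.le
  linarith

end Pool.Agent.Helper90.CV.R2
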